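import Pool.Agent.Lib.MP_994fee_co.TwT.Plus19
import Pool.Agent.Lib.MP_994fee_co.TwT.F75
import Pool.Agent.Lib.MP_994fee_co.TwT.RowP19
import Pool.Agent.Lib.MP_994fee_co.TwT.H78
import Pool.Agent.Lib.MP_994fee_co.TwT.RowB19
import Pool.Agent.Lib.MP_994fee_co.TwT.N92
import Pool.Agent.Lib.MP_994fee_co.TwT.SC78
import Pool.Agent.Lib.MP_994fee_co.TwT.RowSU19
import Pool.Agent.Lib.MP_994fee_co.TwT.RowG19
import Pool.Agent.Lib.MP_994fee_co.TwT.RowO19
import Pool.Agent.Lib.MP_994fee_co.TwT.RowL19

/-!
# The hat guessing number is bounded if the torsos have bounded degree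

For every `n`: if `G` has a tree decomposition of adhesion at most two whose torsos have maximum
degree at most `n`, with blocks of at most `n` vertices in the place of vertices, and after at most
`n` levels in which every vertex has at most `n` neighbours of smaller level, then the hat guessing
number of `G` is less than `q₀ n`.
-/

set_option autoImplicit false

namespace Pool.Agent.Results.MP_994fee_co.BoundedTorsos

open Pool.Agent.Lib.MP_994fee_co

theorem result : ∃ q₀ : ℕ → ℕ, ∀ (n : ℕ) (V : Type) [Fintype V] (G : SimpleGraph V),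
    TorsoTreeLayered n G → ∀ q : ℕ, (∃ s, IsWinning G q s) → q < q₀ n := by
  choose f hf using TwT.rowL19 (TwT.rowO19 (TwT.rowG19 (TwT.rowSU19
    (TwT.rowSC78 (TwT.rowP19 TwT.rowF75) TwT.rowH78 TwT.rowB19 TwT.rowN92))))
  exact ⟨f, fun n V _ G hG q hst => hf n V G hG q hst⟩

end Pool.Agent.Results.MP_994fee_co.BoundedTorsos
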