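import Pool.Agent.Lib.MP_994fee_co.Two.Frame4
import Pool.Agent.Lib.MP_994fee_co.Pair.Sharp

/-!
# The hat guessing number is bounded when the partners of every vertex are incomparable

Every vertex (or block of bounded size) has at most two parents, and the vertices which have a
common child with a vertex `p` are pairwise incomparable, to any depth. For single vertices the
maximum is exactly four. Boundedly many levels may be stacked, and a level may also be a pair-tree,
or a forest plus a graph of bounded degree, in blocks of bounded size.
-/

set_option autoImplicit false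

namespace Pool.Agent.Results.MP_994fee_co.LayeredPairs

open Pool.Agent.Lib.MP_994fee_co

theorem result : ∃ q₀ : ℕ → ℕ,
    (∀ (n : ℕ) (V : Type) [Fintype V] (G : SimpleGraph V), MixedLayered n G →
      ∀ q : ℕ, (∃ s, IsWinning G q s) → q < q₀ n) ∧
    q₀ 1 = 5 ∧
    ∃ (V : Type) (_ : Finite V) (G : SimpleGraph V), Spread 1 G ∧ ∃ s, IsWinning G 4 s := by
  obtain ⟨q₀, h1, h2⟩ := hat_mixedLayered'
  exact ⟨q₀, h2, h1, Pair.Sharp.Vx, inferInstance, Pair.Sharp.Gr,
    Pair.Sharp.gr_pairLayered.spreadLayered.spread, Pair.Sharp.strat, Pair.Sharp.strat_winning⟩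

end Pool.Agent.Results.MP_994fee_co.LayeredPairs
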