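import Pool.Agent.Lib.MP_994fee_co.Pathwidth

/-!
# The hat guessing number is bounded on graphs of bounded pathwidth

If `G` is a finite graph of pathwidth at most `p` and the players win the hat guessing game on `G`
with `q` colours, then `q < 7 ^ (4 ^ p)`.
-/

set_option autoImplicit false

namespace Pool.Agent.Results.MP_994fee_co.Pathwidth

open Pool.Agent.Lib.MP_994fee_co

theorem result (p : ℕ) (V : Type) [Fintype V] (G : SimpleGraph V) (hG : PathwidthLE p G)
    (q : ℕ) (hq : ∃ s, IsWinning G q s) : q < 7 ^ (4 ^ p) := by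
  obtain ⟨s, hs⟩ := hq
  exact PW.hat_lt p G hG q s hs

end Pool.Agent.Results.MP_994fee_co.Pathwidth
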