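import Pool.Agent.Lib.MP_994fee_co.Tri.Final
import Pool.Agent.Lib.MP_994fee_co.Tri.Num13

/-!
# The hat guessing number of `d`-degenerate graphs can be triple exponential in `d`

The graphs even have treewidth at most `d`.
-/

set_option autoImplicit false

namespace Pool.Agent.Results.MP_994fee_co.TripleExponential

open Pool.Agent.Lib.MP_994fee_co

/-- The sequence `1, 2, 6, 42, 1806, ...`. -/
def a : ℕ → ℕ
  | 0 => 1
  | n + 1 => a n * (a n + 1)

lemma a_eq (n : ℕ) : a n = Tri.f^[n] 1 := by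
  induction n with
  | zero => rfl
  | succ n ih =>
    rw [Function.iterate_succ_apply', ← ih]
    rfl

lemma tw_mono {V : Type} {G : SimpleGraph V} {k l : ℕ} (h : k ≤ l) (hG : TreewidthLE k G) :
    TreewidthLE l G := by
  obtain ⟨T, rk, h1, h2, h3⟩ := hG
  exact ⟨T, rk, h1, h2, fun v => ⟨(h3 v).1.trans h, (h3 v).2⟩⟩

theorem result :
    (∀ h q : ℕ, 1 ≤ q → 2 * q ^ (2 * (h + 1)) ≤ a h ^ a h →
      ∃ (V : Type) (_ : Fintype V) (G : SimpleGraph V) (s : V → (V → Fin q) → Fin q),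
        TreewidthLE (2 * h + 1) G ∧
        (∃ ι : V → ℕ, Function.Injective ι ∧
          ∀ v : V, {w : V | G.Adj v w ∧ ι w < ι v}.ncard ≤ 2 * h + 1) ∧
        IsWinning G q s) ∧
    (∀ d : ℕ, 7 ≤ d →
      ∃ (V : Type) (_ : Fintype V) (G : SimpleGraph V)
        (s : V → (V → Fin (2 ^ 2 ^ 2 ^ ((d - 3) / 2))) → Fin (2 ^ 2 ^ 2 ^ ((d - 3) / 2))),
        TreewidthLE d G ∧
        (∃ ι : V → ℕ, Function.Injective ι ∧
          ∀ v : V, {w : V | G.Adj v w ∧ ι w < ι v}.ncard ≤ d) ∧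
        IsWinning G (2 ^ 2 ^ 2 ^ ((d - 3) / 2)) s) := by
  constructor
  · intro h q h1 hq
    rw [a_eq] at hq
    exact Tri.main h1 hq
  · intro d hd
    obtain ⟨h, hh, e1, e2⟩ : ∃ h, 3 ≤ h ∧ 2 * h + 1 ≤ d ∧ (d - 3) / 2 = h - 1 :=
      ⟨(d - 1) / 2, by omega, by omega, by omega⟩
    have hq := Tri.numH13 (h + 1) (by omega)
    have e3 : h + 1 - 2 = h - 1 := by omega
    have e4 : h + 1 - 1 = h := by omega
    rw [e3, e4] at hq
    obtain ⟨V, hV, G, s, hT, ⟨ι, hι, hdeg⟩, hw⟩ := Tri.main (Nat.one_le_two_pow) hq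
    rw [e2]
    exact ⟨V, hV, G, s, tw_mono e1 hT, ⟨ι, hι, fun v => (hdeg v).trans e1⟩, hw⟩

end Pool.Agent.Results.MP_994fee_co.TripleExponential
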